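import Pool.Agent.N86.S10.Energy

/-!
# No invariant set misses the top shell
-/

set_option autoImplicit false

namespace Pool.Agent.N86.S10

open Finset Pool.Agent.N86.S6 Pool.Agent.N86.S8

variable {d : ℕ}

lemma aff_add3 (g : (Fin d → ZMod 2) ≃ᵃ[ZMod 2] (Fin d → ZMod 2)) (x y z : Fin d → ZMod 2) :
    g (x + y + z) = g x + g y + g z := by
  have h : ∀ v, g v = g.linear v + g 0 := by
    intro v
    have h1 := g.map_vadd 0 v
    rw [vadd_eq_add, vadd_eq_add, add_zero] at h1
    exact h1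
  rw [h (x + y + z), h x, h y, h z, map_add, map_add]
  have := vec_add_self (g 0)
  linear_combination -this

lemma Tr_le (C : Finset (Fin d → ZMod 2)) (g : (Fin d → ZMod 2) ≃ᵃ[ZMod 2] (Fin d → ZMod 2)) :
    (Tr C).card ≤ (Tr (C.image g)).card := by
  refine Finset.card_le_card_of_injOn (fun p => (g p.1, g p.2.1, g p.2.2)) ?_ ?_
  · rintro ⟨x, y, z⟩ hp
    rw [Finset.mem_coe, Tr, Finset.mem_filter] at hp
    obtain ⟨-, h1, h2, h3, h4⟩ := hp
    rw [Finset.mem_coe, Tr, Finset.mem_filter]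
    refine ⟨Finset.mem_univ _, fun h => h1 (g.injective h), fun h => h2 (g.injective h),
      fun h => h3 (g.injective h), ?_⟩
    intro w hw
    simp only [Finset.mem_insert, Finset.mem_singleton] at hw
    rw [Finset.mem_image]
    rcases hw with rfl | rfl | rfl | rfl
    · exact ⟨x, h4 (by simp), rfl⟩
    · exact ⟨y, h4 (by simp), rfl⟩
    · exact ⟨z, h4 (by simp), rfl⟩
    · exact ⟨x + y + z, h4 (by simp), aff_add3 g x y z⟩
  · rintro ⟨x, y, z⟩ _ ⟨x', y', z'⟩ _ h
    simp only [Prod.mk.injEq] at h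
    rw [g.injective h.1, g.injective h.2.1, g.injective h.2.2]

lemma Tr_eq (C : Finset (Fin d → ZMod 2)) (g : (Fin d → ZMod 2) ≃ᵃ[ZMod 2] (Fin d → ZMod 2)) :
    (Tr (C.image g)).card = (Tr C).card := by
  refine le_antisymm ?_ (Tr_le C g)
  have h := Tr_le (C.image g) g.symm
  have h1 : (C.image g).image g.symm = C := by
    rw [Finset.image_image]
    have : (g.symm : (Fin d → ZMod 2) → (Fin d → ZMod 2)) ∘ g = id := by
      funext x
      exact g.symm_apply_apply x
    rw [this, Finset.image_id]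
  rwa [h1] at h

/-- the inequality -/
lemma numeric {v m c E : ℕ} (h1 : (v - 3) * E = c * (c - 1) * (c - 2) * (c - 3))
    (h2 : (c * (c - 1)) ^ 2 ≤ (m - 1) * (E + 2 * (c * (c - 1)))) (hc : 7 ≤ c) (hcm : c ≤ m)
    (hmc : m ≤ 2 * c) (hmv : 2 * m ≤ v) : False := by
  obtain ⟨a, rfl⟩ : ∃ a, c = a + 7 := ⟨c - 7, by omega⟩
  obtain ⟨b, rfl⟩ : ∃ b, m = a + 7 + b := ⟨m - (a + 7), by omega⟩
  obtain ⟨w, rfl⟩ : ∃ w, v = 2 * (a + 7 + b) + w := ⟨v - 2 * (a + 7 + b), by omega⟩
  have e1 : a + 7 - 1 = a + 6 := by omega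
  have e2 : a + 7 - 2 = a + 5 := by omega
  have e3 : a + 7 - 3 = a + 4 := by omega
  have e4 : a + 7 + b - 1 = a + b + 6 := by omega
  have e5 : 2 * (a + 7 + b) + w - 3 = 2 * a + 2 * b + 11 + w := by omega
  rw [e1, e2, e3, e5] at h1
  rw [e1, e4] at h2
  have hb : b ≤ a + 7 := by omega
  -- (2a + 2b + 11) E ≤ ...
  have h3 : (2 * a + 2 * b + 11) * E ≤ (a + 7) * (a + 6) * (a + 5) * (a + 4) := by
    rw [← h1]
    exact Nat.mul_le_mul_right _ (by omega)
  have h4 : (2 * a + 2 * b + 11) * ((a + 7) * (a + 6)) ^ 2 ≤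
      (a + b + 6) * ((a + 7) * (a + 6) * (a + 5) * (a + 4) +
        (2 * a + 2 * b + 11) * (2 * ((a + 7) * (a + 6)))) := by
    calc (2 * a + 2 * b + 11) * ((a + 7) * (a + 6)) ^ 2 ≤
        (2 * a + 2 * b + 11) * ((a + b + 6) * (E + 2 * ((a + 7) * (a + 6)))) :=
          Nat.mul_le_mul_left _ h2
      _ = (a + b + 6) * ((2 * a + 2 * b + 11) * E +
          (2 * a + 2 * b + 11) * (2 * ((a + 7) * (a + 6)))) := by ring
      _ ≤ _ := Nat.mul_le_mul_left _ (Nat.add_le_add_right h3 _)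
  have h5 : (2 * a + 2 * b + 11) * ((a + 7) * (a + 6)) ≤
      (a + b + 6) * ((a + 5) * (a + 4) + (2 * a + 2 * b + 11) * 2) := by
    have hp : 0 < (a + 7) * (a + 6) := by positivity
    refine Nat.le_of_mul_le_mul_left ?_ hp
    calc (a + 7) * (a + 6) * ((2 * a + 2 * b + 11) * ((a + 7) * (a + 6))) =
        (2 * a + 2 * b + 11) * ((a + 7) * (a + 6)) ^ 2 := by ring
      _ ≤ _ := h4
      _ = _ := by ring
  nlinarith [h5, Nat.mul_le_mul_right (a + 7 + b) hb, Nat.zero_le (a * (a + 7) * (a + 7 + b)),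
    Nat.zero_le ((a + 7) * b)]

/-- the main step -/
theorem core {𝓒 : Finset (Finset (Fin d → ZMod 2))} {c μ : ℕ} (hc : ∀ C ∈ 𝓒, C.card = c)
    (h4 : ∀ T : Finset (Fin d → ZMod 2), T.card = 4 → (𝓒.filter (fun C => T ⊆ C)).card = μ)
    {C0 : Finset (Fin d → ZMod 2)} (hC0 : C0 ∈ 𝓒)
    (htr : ∀ C ∈ 𝓒, ∃ g : (Fin d → ZMod 2) ≃ᵃ[ZMod 2] (Fin d → ZMod 2), C = C0.image g)
    (hU : ∀ T ∈ UT d, C0.image T = C0) (hc7 : 7 ≤ c) (hd : 1 ≤ d)
    (hlo : ∀ x ∈ C0, Lo (d - 1) x) : False := by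
  classical
  have hex : ∃ n, ∀ x ∈ C0, Lo n x := ⟨d - 1, hlo⟩
  obtain ⟨n, hn, hmin⟩ : ∃ n, (∀ x ∈ C0, Lo n x) ∧ ∀ n', (∀ x ∈ C0, Lo n' x) → n ≤ n' :=
    ⟨Nat.find hex, Nat.find_spec hex, fun n' h => Nat.find_min' hex h⟩
  have hnd : n ≤ d - 1 := hmin _ hlo
  have hC0c := hc C0 hC0
  -- `n` is positive
  have hn0 : n ≠ 0 := by
    rintro rfl
    have h1 : C0 ⊆ {0} := by
      intro x hx
      rw [Finset.mem_singleton]
      funext l
      exact hn x hx l (Nat.zero_le _)
    have h2 := Finset.card_le_card h1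
    rw [Finset.card_singleton] at h2
    omega
  -- the shell
  let i : Fin d := ⟨n - 1, by omega⟩
  have hi1 : i.1 + 1 = n := by show n - 1 + 1 = n; omega
  obtain ⟨x0, hx0, hx0'⟩ : ∃ x ∈ C0, x i ≠ 0 := by
    by_contra hcon
    push Not at hcon
    have h1 := hmin (n - 1) (fun x hx l hl => by
      rcases Nat.eq_or_lt_of_le hl with h | h
      · have h2 : i = l := Fin.ext h
        rw [← h2]; exact hcon x hx
      · exact hn x hx l (by omega))
    omega
  have hsh : ∀ y, Lo n y → y i ≠ 0 → y ∈ C0 := by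
    intro y hy hyi
    exact shell hU i (by rw [hi1]; exact hn x0 hx0) (by rw [hi1]; exact hy) hx0' hyi hx0
  let M : Finset (Fin d → ZMod 2) := univ.filter (fun x => Lo n x)
  have hM : ∀ x, x ∈ M ↔ Lo n x := fun x => by simp [M]
  have h0 : (0 : Fin d → ZMod 2) ∈ M := (hM 0).2 fun l _ => rfl
  have hadd : ∀ x y : Fin d → ZMod 2, Lo n x → Lo n y → Lo n (x + y) := by
    intro x y hx hy l hl
    rw [Pi.add_apply, hx l hl, hy l hl, add_zero]
  have hcm : c ≤ M.card := by
    rw [← hC0c]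
    exact Finset.card_le_card fun x hx => (hM x).2 (hn x hx)
  have hmc : M.card ≤ 2 * c := by
    have h1 : M ⊆ C0 ∪ C0.image (fun x => x + Pi.single i 1) := by
      intro x hx
      rw [hM] at hx
      rw [Finset.mem_union, Finset.mem_image]
      by_cases hxi : x i = 0
      · right
        refine ⟨x + Pi.single i 1, hsh _ (hadd _ _ hx ?_) ?_, ?_⟩
        · intro l hl
          rw [Pi.single_apply, if_neg]
          intro h
          rw [h] at hl
          omega
        · rw [Pi.add_apply, hxi, Pi.single_eq_same, zero_add]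
          exact one_ne_zero
        · show x + Pi.single i 1 + Pi.single i 1 = x
          rw [add_assoc, vec_add_self, add_zero]
      · left
        exact hsh x hx hxi
    have h2 := (Finset.card_le_card h1).trans (Finset.card_union_le _ _)
    have h3 : (C0.image (fun x => x + Pi.single i 1)).card ≤ C0.card := Finset.card_image_le
    omega
  have hmv : 2 * M.card ≤ 2 ^ d := by
    let j : Fin d := ⟨n, by omega⟩
    have h1 : Disjoint M (M.image (fun x => x + Pi.single j 1)) := by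
      rw [Finset.disjoint_left]
      intro x hx hx'
      rw [hM] at hx
      rw [Finset.mem_image] at hx'
      obtain ⟨y, hy, rfl⟩ := hx'
      rw [hM] at hy
      have h2 := hx j (le_refl _)
      rw [Pi.add_apply, hy j (le_refl _), Pi.single_eq_same, zero_add] at h2
      exact one_ne_zero h2
    have h2 : (M ∪ M.image (fun x => x + Pi.single j 1)).card ≤
        (univ : Finset (Fin d → ZMod 2)).card := Finset.card_le_card (Finset.subset_univ _)
    rw [Finset.card_union_of_disjoint h1, Finset.card_image_of_injective _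
      (fun x y h => add_right_cancel h), Finset.card_univ, Fintype.card_fun, ZMod.card,
      Fintype.card_fin] at h2
    omega
  have hE : ∀ C ∈ 𝓒, (Tr C).card = (Tr C0).card := by
    intro C hC
    obtain ⟨g, rfl⟩ := htr C hC
    exact Tr_eq C0 g
  have h1 := planes hc h4 hE ⟨C0, hC0⟩
  have h2 := energy (C := C0) h0 (fun x hx y hy => (hM _).2 (hadd x y (hn x hx) (hn y hy)))
  rw [hC0c] at h2
  exact numeric h1 h2 hc7 hcm hmc hmv

end Pool.Agent.N86.S10
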