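import Pool.Agent.N86.S10.Uni

/-!
# Planes in the blocks
-/

set_option autoImplicit false

namespace Pool.Agent.N86.S10

open Finset Pool.Agent.N86.S6 Pool.Agent.N86.S8

variable {d : ℕ}

/-- the triples of distinct points of `C` whose sum is in `C` -/
def Tr (C : Finset (Fin d → ZMod 2)) :
    Finset ((Fin d → ZMod 2) × (Fin d → ZMod 2) × (Fin d → ZMod 2)) :=
  univ.filter (fun p => p.1 ≠ p.2.1 ∧ p.1 ≠ p.2.2 ∧ p.2.1 ≠ p.2.2 ∧
    ({p.1, p.2.1, p.2.2, p.1 + p.2.1 + p.2.2} : Finset (Fin d → ZMod 2)) ⊆ C)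

lemma vec_eq {x y : Fin d → ZMod 2} (h : x + y = 0) : x = y := by
  have := vec_add_self y
  calc x = x + (y + y) := by rw [this, add_zero]
    _ = (x + y) + y := by abel
    _ = y := by rw [h, zero_add]

lemma card_quad {x y z : Fin d → ZMod 2} (h1 : x ≠ y) (h2 : x ≠ z) (h3 : y ≠ z) :
    ({x, y, z, x + y + z} : Finset (Fin d → ZMod 2)).card = 4 := by
  have e1 : x ≠ x + y + z := by
    intro h
    apply h3
    apply vec_eq
    have : x + (y + z) = x + 0 := by rw [add_zero, ← add_assoc, ← h]
    exact add_left_cancel this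
  have e2 : y ≠ x + y + z := by
    intro h
    apply h2
    apply vec_eq
    have : y + (x + z) = y + 0 := by rw [add_zero, ← add_assoc, add_comm y x, ← h]
    exact add_left_cancel this
  have e3 : z ≠ x + y + z := by
    intro h
    apply h1
    apply vec_eq
    have : z + (x + y) = z + 0 := by rw [add_zero, add_comm z, ← h]
    exact add_left_cancel this
  rw [Finset.card_insert_of_notMem, Finset.card_insert_of_notMem, Finset.card_insert_of_notMem,
    Finset.card_singleton]
  · rw [Finset.mem_singleton]; exact e3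
  · rw [Finset.mem_insert, Finset.mem_singleton, not_or]; exact ⟨h3, e2⟩
  · rw [Finset.mem_insert, Finset.mem_insert, Finset.mem_singleton, not_or, not_or]
    exact ⟨h1, h2, e1⟩

/-- the number of the triples of distinct points -/
lemma card_triples (X : Type*) [Fintype X] [DecidableEq X] :
    ((univ : Finset (X × X × X)).filter
      (fun p => p.1 ≠ p.2.1 ∧ p.1 ≠ p.2.2 ∧ p.2.1 ≠ p.2.2)).card =
      Fintype.card X * (Fintype.card X - 1) * (Fintype.card X - 2) := by
  have h0 : Fintype.card (Fin 3 ↪ X) =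
      Fintype.card X * (Fintype.card X - 1) * (Fintype.card X - 2) := by
    rw [Fintype.card_embedding_eq, Fintype.card_fin]
    simp only [Nat.descFactorial_succ, Nat.descFactorial_zero, Nat.sub_zero, mul_one]
    ring
  rw [← h0, ← Fintype.card_coe]
  refine Fintype.card_congr ⟨fun p => ⟨![p.1.1, p.1.2.1, p.1.2.2], ?_⟩,
    fun φ => ⟨(φ 0, φ 1, φ 2), ?_⟩, fun p => ?_, fun φ => ?_⟩
  · obtain ⟨⟨x, y, z⟩, hp⟩ := p
    rw [Finset.mem_filter] at hp
    obtain ⟨-, h1, h2, h3⟩ := hp
    intro i j hij
    fin_cases i <;> fin_cases j <;> simp_all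
  · rw [Finset.mem_filter]
    refine ⟨Finset.mem_univ _, ?_, ?_, ?_⟩
    · exact fun h => absurd (φ.injective h) (by decide)
    · exact fun h => absurd (φ.injective h) (by decide)
    · exact fun h => absurd (φ.injective h) (by decide)
  · rfl
  · ext i
    fin_cases i <;> rfl

/-- double counting of the planes in the members of a `4`-design -/
theorem planes {𝓒 : Finset (Finset (Fin d → ZMod 2))} {c μ E : ℕ} (hc : ∀ C ∈ 𝓒, C.card = c)
    (h4 : ∀ T : Finset (Fin d → ZMod 2), T.card = 4 → (𝓒.filter (fun C => T ⊆ C)).card = μ)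
    (hE : ∀ C ∈ 𝓒, (Tr C).card = E) (hne : 𝓒.Nonempty) :
    (2 ^ d - 3) * E = c * (c - 1) * (c - 2) * (c - 3) := by
  classical
  have hcard : Fintype.card (Fin d → ZMod 2) = 2 ^ d := by
    rw [Fintype.card_fun, ZMod.card, Fintype.card_fin]
  have h1 : 𝓒.card * E = 2 ^ d * (2 ^ d - 1) * (2 ^ d - 2) * μ := by
    have h2 := Finset.sum_card_bipartiteAbove_eq_sum_card_bipartiteBelow
      (s := (univ : Finset ((Fin d → ZMod 2) × (Fin d → ZMod 2) × (Fin d → ZMod 2))).filter
        (fun p => p.1 ≠ p.2.1 ∧ p.1 ≠ p.2.2 ∧ p.2.1 ≠ p.2.2)) (t := 𝓒)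
      (fun p C => ({p.1, p.2.1, p.2.2, p.1 + p.2.1 + p.2.2} : Finset (Fin d → ZMod 2)) ⊆ C)
    have h3 : ∀ C ∈ 𝓒, (Finset.bipartiteBelow
        (fun p C => ({p.1, p.2.1, p.2.2, p.1 + p.2.1 + p.2.2} : Finset (Fin d → ZMod 2)) ⊆ C)
        ((univ : Finset ((Fin d → ZMod 2) × (Fin d → ZMod 2) × (Fin d → ZMod 2))).filter
        (fun p => p.1 ≠ p.2.1 ∧ p.1 ≠ p.2.2 ∧ p.2.1 ≠ p.2.2)) C).card = E := by
      intro C hC
      rw [← hE C hC]
      congr 1
      ext p
      simp only [Finset.bipartiteBelow, Tr, Finset.mem_filter, Finset.mem_univ, true_and]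
      tauto
    rw [Finset.sum_congr rfl h3, Finset.sum_const, smul_eq_mul] at h2
    rw [← h2, ← hcard, ← card_triples, ← smul_eq_mul, ← Finset.sum_const]
    refine Finset.sum_congr rfl fun p hp => ?_
    rw [Finset.mem_filter] at hp
    exact h4 _ (card_quad hp.2.1 hp.2.2.1 hp.2.2.2)
  have h5 : 𝓒.card * c.choose 4 = μ * (2 ^ d).choose 4 := by
    have h2 := Finset.sum_card_bipartiteAbove_eq_sum_card_bipartiteBelow
      (s := (univ : Finset (Fin d → ZMod 2)).powersetCard 4) (t := 𝓒)
      (fun T C : Finset (Fin d → ZMod 2) => T ⊆ C)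
    have h3 : ∀ C ∈ 𝓒, (Finset.bipartiteBelow (fun T C : Finset (Fin d → ZMod 2) => T ⊆ C)
        ((univ : Finset (Fin d → ZMod 2)).powersetCard 4) C).card = c.choose 4 := by
      intro C hC
      rw [← hc C hC, ← Finset.card_powersetCard]
      congr 1
      ext T
      simp only [Finset.bipartiteBelow, Finset.mem_filter, Finset.mem_powersetCard]
      exact ⟨fun h => ⟨h.2, h.1.2⟩, fun h => ⟨⟨Finset.subset_univ _, h.2⟩, h.1⟩⟩
    rw [Finset.sum_congr rfl h3, Finset.sum_const, smul_eq_mul] at h2
    have h6 : ∀ T ∈ (univ : Finset (Fin d → ZMod 2)).powersetCard 4,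
        (Finset.bipartiteAbove (fun T C : Finset (Fin d → ZMod 2) => T ⊆ C) 𝓒 T).card = μ :=
      fun T hT => h4 T (Finset.mem_powersetCard.1 hT).2
    rw [Finset.sum_congr rfl h6, Finset.sum_const, smul_eq_mul, Finset.card_powersetCard,
      Finset.card_univ, hcard] at h2
    rw [← h2, mul_comm]
  have e : ∀ n : ℕ, 24 * n.choose 4 = n * (n - 1) * (n - 2) * (n - 3) := by
    intro n
    have h := Nat.descFactorial_eq_factorial_mul_choose n 4
    have h1 : n.descFactorial 4 = n * (n - 1) * (n - 2) * (n - 3) := by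
      simp only [Nat.descFactorial_succ, Nat.descFactorial_zero, Nat.sub_zero, mul_one]
      ring
    rw [← h1, h]
    rfl
  have hpos : 0 < 𝓒.card := Finset.card_pos.2 hne
  refine Nat.eq_of_mul_eq_mul_left hpos ?_
  calc 𝓒.card * ((2 ^ d - 3) * E) = (2 ^ d - 3) * (𝓒.card * E) := by ring
    _ = μ * (2 ^ d * (2 ^ d - 1) * (2 ^ d - 2) * (2 ^ d - 3)) := by rw [h1]; ring
    _ = μ * (24 * (2 ^ d).choose 4) := by rw [e]
    _ = 24 * (μ * (2 ^ d).choose 4) := by ring
    _ = 24 * (𝓒.card * c.choose 4) := by rw [h5]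
    _ = 𝓒.card * (24 * c.choose 4) := by ring
    _ = _ := by rw [e]

/-- the lower bound for the number of the triples -/
theorem energy {C M : Finset (Fin d → ZMod 2)} (h0 : (0 : Fin d → ZMod 2) ∈ M)
    (hM : ∀ x ∈ C, ∀ y ∈ C, x + y ∈ M) :
    (C.card * (C.card - 1)) ^ 2 ≤ (M.card - 1) * ((Tr C).card + 2 * (C.card * (C.card - 1))) := by
  classical
  let R : (Fin d → ZMod 2) → Finset (Fin d → ZMod 2) := fun s => C.filter (fun x => x + s ∈ C)
  -- the sum
  have h1 : ∑ s ∈ M.erase 0, (R s).card = C.card * (C.card - 1) := by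
    have h2 : C.card * (C.card - 1) = (C.offDiag).card := by
      rw [Finset.offDiag_card, Nat.mul_sub, mul_one]
    rw [h2, Finset.card_eq_sum_card_fiberwise (f := fun p => p.1 + p.2) (t := M.erase 0)]
    · refine Finset.sum_congr rfl fun s hs => ?_
      refine Finset.card_bij (fun x _ => (x, x + s)) ?_ ?_ ?_
      · intro x hx
        rw [Finset.mem_filter] at hx
        rw [Finset.mem_filter, Finset.mem_offDiag]
        refine ⟨⟨hx.1, hx.2, ?_⟩, ?_⟩
        · intro h
          have h3 : x + 0 = x + s := by rw [add_zero]; exact h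
          exact (Finset.mem_erase.1 hs).1 (add_left_cancel h3).symm
        · show x + (x + s) = s
          rw [← add_assoc, vec_add_self, zero_add]
      · intro x _ y _ h
        exact congrArg Prod.fst h
      · rintro ⟨x, y⟩ hxy
        rw [Finset.mem_filter, Finset.mem_offDiag] at hxy
        obtain ⟨⟨hx, hy, hne⟩, hs'⟩ := hxy
        have h3 : x + s = y := by
          rw [← hs']
          show x + (x + y) = y
          rw [← add_assoc, vec_add_self, zero_add]
        refine ⟨x, Finset.mem_filter.2 ⟨hx, by rw [h3]; exact hy⟩, by rw [h3]⟩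
    · rintro ⟨x, y⟩ hxy
      rw [Finset.mem_coe, Finset.mem_offDiag] at hxy
      rw [Finset.mem_coe, Finset.mem_erase]
      exact ⟨fun h => hxy.2.2 (vec_eq h), hM x hxy.1 y hxy.2.1⟩
  -- the sum of the squares
  have h2 : ∑ s ∈ M.erase 0, (R s).card ^ 2 ≤ (Tr C).card + 2 * (C.card * (C.card - 1)) := by
    rw [← h1, Finset.mul_sum]
    have h3 : ∑ s ∈ M.erase 0, (R s).card * ((R s).card - 2) ≤ (Tr C).card := by
      rw [Finset.card_eq_sum_card_fiberwise (f := fun p => p.1 + p.2.1) (t := M.erase 0)]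
      · refine Finset.sum_le_sum fun s hs => ?_
        have h4 : (R s).card * ((R s).card - 2) ≤
            ((R s).sigma (fun x => (R s).filter (fun z => z ≠ x ∧ z ≠ x + s))).card := by
          rw [Finset.card_sigma, ← smul_eq_mul, ← Finset.sum_const]
          refine Finset.sum_le_sum fun x _ => ?_
          have h5 : (R s) ⊆ ((R s).filter (fun z => z ≠ x ∧ z ≠ x + s)) ∪ {x, x + s} := by
            intro z hz
            rw [Finset.mem_union, Finset.mem_filter, Finset.mem_insert, Finset.mem_singleton]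
            by_cases h6 : z = x
            · right; left; exact h6
            by_cases h7 : z = x + s
            · right; right; exact h7
            · left; exact ⟨hz, h6, h7⟩
          have h6 := Finset.card_le_card h5
          have h7 := Finset.card_union_le ((R s).filter (fun z => z ≠ x ∧ z ≠ x + s)) {x, x + s}
          have h8 : ({x, x + s} : Finset (Fin d → ZMod 2)).card ≤ 2 := Finset.card_le_two
          omega
        refine h4.trans ?_
        refine Finset.card_le_card_of_injOn (fun p => (p.1, p.1 + s, p.2)) ?_ ?_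
        · rintro ⟨x, z⟩ hp
          rw [Finset.mem_coe, Finset.mem_sigma, Finset.mem_filter, Finset.mem_filter,
            Finset.mem_filter] at hp
          obtain ⟨⟨hx, hxs⟩, ⟨hz, hzs⟩, hzx, hzxs⟩ := hp
          rw [Finset.mem_coe, Finset.mem_filter, Tr, Finset.mem_filter]
          have h9 : x + (x + s) = s := by rw [← add_assoc, vec_add_self, zero_add]
          refine ⟨⟨Finset.mem_univ _, ?_, fun h => hzx h.symm, fun h => hzxs h.symm, ?_⟩, h9⟩
          · intro h
            have h3 : x + 0 = x + s := by rw [add_zero]; exact h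
            exact (Finset.mem_erase.1 hs).1 (add_left_cancel h3).symm
          · intro y hy
            simp only [Finset.mem_insert, Finset.mem_singleton] at hy
            rcases hy with rfl | rfl | rfl | rfl
            · exact hx
            · exact hxs
            · exact hz
            · rw [h9, add_comm]; exact hzs
        · rintro ⟨x, z⟩ _ ⟨x', z'⟩ _ h
          simp only [Prod.mk.injEq] at h
          obtain ⟨rfl, -, rfl⟩ := h
          rfl
      · rintro ⟨x, y, z⟩ hp
        rw [Finset.mem_coe, Tr, Finset.mem_filter] at hp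
        obtain ⟨-, hxy, -, -, hsub⟩ := hp
        rw [Finset.mem_coe, Finset.mem_erase]
        exact ⟨fun h => hxy (vec_eq h), hM x (hsub (by simp)) y (hsub (by simp))⟩
    have h4 : ∀ s ∈ M.erase 0, (R s).card ^ 2 ≤ (R s).card * ((R s).card - 2) +
        2 * (R s).card := by
      intro s _
      rcases Nat.lt_or_ge (R s).card 2 with h | h
      · interval_cases (R s).card <;> norm_num
      · obtain ⟨n, hn⟩ : ∃ n, (R s).card = n + 2 := ⟨(R s).card - 2, by omega⟩
        rw [hn]
        have : n + 2 - 2 = n := by omega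
        rw [this]
        exact le_of_eq (by ring)
    calc ∑ s ∈ M.erase 0, (R s).card ^ 2 ≤
        ∑ s ∈ M.erase 0, ((R s).card * ((R s).card - 2) + 2 * (R s).card) :=
          Finset.sum_le_sum h4
      _ = ∑ s ∈ M.erase 0, (R s).card * ((R s).card - 2) + ∑ s ∈ M.erase 0, 2 * (R s).card :=
          Finset.sum_add_distrib
      _ ≤ _ := Nat.add_le_add_right h3 _
  have h3 := sq_sum_le_card_mul_sum_sq (s := M.erase 0) (f := fun s => (R s).card)
  rw [h1, Finset.card_erase_of_mem h0] at h3
  exact h3.trans (Nat.mul_le_mul_left _ h2)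

end Pool.Agent.N86.S10
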