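import Pool.Agent.N86.S10.Core

/-!
# `AGL(d, 2)` is not block-transitive on a `6`-design with `λ` odd
-/

set_option autoImplicit false

namespace Pool.Agent.N86.S10

open Finset Pool.Agent.N86.S6 Pool.Agent.N86.S8

variable {d : ℕ}

/-- unitriangular maps are affine -/
lemma exists_aff {T : Equiv.Perm (Fin d → ZMod 2)} (hT : T ∈ UT d) :
    ∃ g : (Fin d → ZMod 2) ≃ᵃ[ZMod 2] (Fin d → ZMod 2),
      (g : (Fin d → ZMod 2) → (Fin d → ZMod 2)) = T := by
  have hadd := hT.1.add
  let e : (Fin d → ZMod 2) ≃+ (Fin d → ZMod 2) := { T with map_add' := hadd }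
  let l : (Fin d → ZMod 2) ≃ₗ[ZMod 2] (Fin d → ZMod 2) := e.toLinearEquiv (by
    intro c x
    show T (c • x) = c • T x
    by_cases hc : c = 0
    · rw [hc, zero_smul, zero_smul, hT.1.zero]
    · rw [zmod2_eq_one hc, one_smul, one_smul])
  exact ⟨l.toAffineEquiv, rfl⟩

/-- an invariant set of six points -/
def S1 (d : ℕ) : Finset (Fin d → ZMod 2) :=
  (univ.filter (fun u : Fin 3 → ZMod 2 => u 2 ≠ 0 ∨ u 1 = 0)).image
    (fun u l => if h : l.1 < 3 then u ⟨l.1, h⟩ else 0)

lemma S1_card (hd : 3 ≤ d) : (S1 d).card = 6 := by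
  unfold S1
  rw [Finset.card_image_of_injective]
  · decide
  · intro u w h
    funext i
    have h1 := congrFun h ⟨i.1, by omega⟩
    have h2 : i.1 < 3 := i.2
    simp only [h2, dite_true] at h1
    exact h1

lemma mem_S1 (hd : 3 ≤ d) (x : Fin d → ZMod 2) :
    x ∈ S1 d ↔ Lo 3 x ∧ (x ⟨2, by omega⟩ ≠ 0 ∨ x ⟨1, by omega⟩ = 0) := by
  unfold S1
  rw [Finset.mem_image]
  constructor
  · rintro ⟨u, hu, rfl⟩
    rw [Finset.mem_filter] at hu
    refine ⟨fun l hl => ?_, ?_⟩
    · show (if h : l.1 < 3 then u ⟨l.1, h⟩ else 0) = 0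
      rw [dif_neg (by omega)]
    · exact hu.2
  · rintro ⟨h1, h2⟩
    refine ⟨fun i => x ⟨i.1, by omega⟩, ?_, ?_⟩
    · rw [Finset.mem_filter]
      exact ⟨Finset.mem_univ _, h2⟩
    · funext l
      show (if h : l.1 < 3 then x ⟨l.1, _⟩ else 0) = x l
      by_cases h : l.1 < 3
      · rw [dif_pos h]
      · rw [dif_neg h, h1 l (by omega)]

lemma S1_inv (hd : 3 ≤ d) {T : Equiv.Perm (Fin d → ZMod 2)} (hT : T ∈ UT d) :
    (S1 d).image T = S1 d := by
  refine Finset.eq_of_subset_of_card_le ?_ (by rw [Finset.card_image_of_injective _ T.injective])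
  intro y hy
  rw [Finset.mem_image] at hy
  obtain ⟨x, hx, rfl⟩ := hy
  rw [mem_S1 hd] at hx ⊢
  refine ⟨hT.1.lo hx.1, ?_⟩
  have h1 := hT.1.tri 3 x hx.1 ⟨2, by omega⟩ (by simp)
  rw [Pi.add_apply] at h1
  by_cases h2 : x ⟨2, by omega⟩ = 0
  · right
    have h3 : x ⟨1, by omega⟩ = 0 := by
      rcases hx.2 with h | h
      · exact absurd h2 h
      · exact h
    have h4 : Lo 1 x := by
      intro l hl
      by_cases h5 : l.1 = 1
      · have : l = ⟨1, by omega⟩ := Fin.ext h5
        rw [this]; exact h3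
      by_cases h6 : l.1 = 2
      · have : l = ⟨2, by omega⟩ := Fin.ext h6
        rw [this]; exact h2
      exact hx.1 l (by omega)
    exact hT.1.lo h4 _ (le_refl _)
  · left
    intro h3
    rw [h3, zero_add] at h1
    exact h2 h1

lemma image_compl_eq {X : Type*} [Fintype X] [DecidableEq X] (f : X ≃ X) (B : Finset X) :
    (B.image f)ᶜ = Bᶜ.image f := by
  ext x
  rw [Finset.mem_compl, Finset.mem_image, Finset.mem_image]
  constructor
  · intro h
    refine ⟨f.symm x, ?_, f.apply_symm_apply x⟩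
    rw [Finset.mem_compl]
    intro h'
    exact h ⟨_, h', f.apply_symm_apply x⟩
  · rintro ⟨y, hy, rfl⟩ ⟨z, hz, h⟩
    rw [f.injective h] at hz
    exact (Finset.mem_compl.1 hy) hz

/-- `AGL(d, 2)` is not block-transitive on a nontrivial `6`-design with `λ` odd -/
theorem agl_odd {k lam : ℕ} {𝓑 : Finset (Finset (Fin d → ZMod 2))} (hD : IsDesign 6 k lam 𝓑)
    (hl : Odd lam)
    (hinv : ∀ g : (Fin d → ZMod 2) ≃ᵃ[ZMod 2] (Fin d → ZMod 2), ∀ B ∈ 𝓑, B.image g ∈ 𝓑)
    (htr : ∀ B ∈ 𝓑, ∀ B' ∈ 𝓑, ∃ g : (Fin d → ZMod 2) ≃ᵃ[ZMod 2] (Fin d → ZMod 2),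
      B' = B.image g)
    {B0 : Finset (Fin d → ZMod 2)} (hB0 : B0 ∈ 𝓑) (hk : 6 < k)
    {C : Finset (Fin d → ZMod 2)} (hC : C.card = k) (hC' : C ∉ 𝓑) : False := by
  classical
  have hcard : Fintype.card (Fin d → ZMod 2) = 2 ^ d := by
    rw [Fintype.card_fun, ZMod.card, Fintype.card_fin]
  have hgap := gap hD (by omega) hB0 hC hC'
  rw [hcard] at hgap
  have hd4 : 4 ≤ d := by
    by_contra hcon
    have h1 : 2 ^ d ≤ 2 ^ 3 := Nat.pow_le_pow_right (by norm_num) (by omega)
    omega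
  -- the fixed block
  obtain ⟨B, hB, hU⟩ : ∃ B ∈ 𝓑, ∀ T ∈ UT d, B.image T = B := by
    have hst : ∀ g ∈ UT d, ∀ B ∈ 𝓑.filter (fun B => S1 d ⊆ B),
        B.image g ∈ 𝓑.filter (fun B => S1 d ⊆ B) := by
      intro g hg B hB
      rw [Finset.mem_filter] at hB ⊢
      obtain ⟨a, ha⟩ := exists_aff hg
      refine ⟨?_, ?_⟩
      · rw [← ha]; exact hinv a B hB.1
      · rw [← S1_inv (by omega) hg]
        exact Finset.image_subset_image hB.2
    letI act : MulAction (UT d) {B // B ∈ 𝓑.filter (fun B => S1 d ⊆ B)} :=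
      { smul := fun g s => ⟨s.1.image g.1, hst g.1 g.2 s.1 s.2⟩
        one_smul := fun s => Subtype.ext Finset.image_id
        mul_smul := fun g h s => by
          apply Subtype.ext
          show s.1.image (g * h).1 = (s.1.image h.1).image g.1
          rw [Finset.image_image]
          rfl }
    have : Fact (Nat.Prime 2) := ⟨Nat.prime_two⟩
    have h1 : ¬ 2 ∣ Nat.card {B // B ∈ 𝓑.filter (fun B => S1 d ⊆ B)} := by
      rw [Nat.card_eq_fintype_card, Fintype.card_coe, hD.2 _ (S1_card (by omega))]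
      exact hl.not_two_dvd_nat
    obtain ⟨s, hs⟩ := (UT_pg (d := d)).nonempty_fixed_point_of_prime_not_dvd_card
      {B // B ∈ 𝓑.filter (fun B => S1 d ⊆ B)} h1
    refine ⟨s.1, (Finset.mem_filter.1 s.2).1, fun g hg => ?_⟩
    exact congrArg Subtype.val (hs ⟨g, hg⟩)
  by_cases htop : ∀ x ∈ B, Lo (d - 1) x
  · obtain ⟨T0, -, hT0⟩ := Finset.exists_subset_card_eq (s := B0) (n := 4)
      (by rw [hD.1 B0 hB0]; omega)
    refine core (𝓒 := 𝓑) (c := k) (μ := (𝓑.filter (fun B => T0 ⊆ B)).card) hD.1 ?_ hB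
      (htr B hB) hU (by omega) (by omega) htop
    intro T hT
    exact through_eq hD (by omega) T T0 (by rw [hT, hT0]) (by omega)
  · push Not at htop
    obtain ⟨x, hx, hx'⟩ := htop
    let i : Fin d := ⟨d - 1, by omega⟩
    have hi1 : i.1 + 1 = d := by show d - 1 + 1 = d; omega
    have hLo : ∀ y : Fin d → ZMod 2, Lo (i.1 + 1) y := by
      intro y l hl'
      have := l.2
      omega
    have hLo' : ∀ y : Fin d → ZMod 2, y i = 0 → Lo (d - 1) y := by
      intro y hy l hl'
      have h1 : l = i := Fin.ext (by show l.1 = d - 1; omega)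
      rw [h1]; exact hy
    have hxi : x i ≠ 0 := fun h => hx' (hLo' x h)
    have hlo : ∀ y ∈ Bᶜ, Lo (d - 1) y := by
      intro y hy
      apply hLo'
      by_contra hyi
      exact (Finset.mem_compl.1 hy) (shell hU i (hLo x) (hLo y) hxi hyi hx)
    obtain ⟨T0, -, hT0⟩ := Finset.exists_subset_card_eq (s := B0) (n := 4)
      (by rw [hD.1 B0 hB0]; omega)
    refine core (𝓒 := 𝓑.image compl) (c := 2 ^ d - k) (μ := cnt 𝓑 ∅ T0) (C0 := Bᶜ) ?_ ?_
      (Finset.mem_image_of_mem _ hB) ?_ ?_ (by omega) (by omega) hlo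
    · intro D hD'
      rw [Finset.mem_image] at hD'
      obtain ⟨D', hD', rfl⟩ := hD'
      rw [Finset.card_compl, hD.1 D' hD', hcard]
    · intro T hT
      have h1 : (𝓑.image compl).filter (fun C => T ⊆ C) =
          (𝓑.filter (fun B => ∅ ⊆ B ∧ Disjoint T B)).image compl := by
        rw [Finset.filter_image]
        congr 1
        refine Finset.filter_congr fun D _ => ?_
        constructor
        · intro h
          refine ⟨Finset.empty_subset _, Finset.disjoint_left.2 fun y hy hy' => ?_⟩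
          exact (Finset.mem_compl.1 (h hy)) hy'
        · rintro ⟨-, h⟩ y hy
          rw [Finset.mem_compl]
          exact fun hy' => (Finset.disjoint_left.1 h) hy hy'
      rw [h1, Finset.card_image_of_injective _ compl_injective]
      exact cnt_eq hD (by omega) 4 ∅ T ∅ T0 hT hT0 rfl (Finset.disjoint_empty_left _)
        (Finset.disjoint_empty_left _) (by rw [Finset.card_empty]; omega)
    · intro D hD'
      rw [Finset.mem_image] at hD'
      obtain ⟨D', hD', rfl⟩ := hD'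
      obtain ⟨g, hg⟩ := htr B hB D' hD'
      refine ⟨g, ?_⟩
      rw [hg]
      exact image_compl_eq g.toEquiv B
    · intro T hT
      have h1 := image_compl_eq T B
      rw [hU T hT] at h1
      exact h1.symm

end Pool.Agent.N86.S10
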