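import Pool.Agent.N86.S8.Agl

/-!
# The unitriangular group
-/

set_option autoImplicit false

namespace Pool.Agent.N86.S10

open Finset Pool.Agent.N86.S6 Pool.Agent.N86.S8

variable {d : ℕ}

/-- the first `n` coordinates -/
def Lo (n : ℕ) (x : Fin d → ZMod 2) : Prop := ∀ l : Fin d, n ≤ l.1 → x l = 0

/-- unitriangular maps -/
structure Uni (g : Equiv.Perm (Fin d → ZMod 2)) : Prop where
  add : ∀ x y, g (x + y) = g x + g y
  tri : ∀ n x, Lo n x → ∀ l : Fin d, n ≤ l.1 + 1 → (g x + x) l = 0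

lemma Uni.zero {g : Equiv.Perm (Fin d → ZMod 2)} (hg : Uni g) : g 0 = 0 := by
  have h := hg.add 0 0
  rw [add_zero] at h
  have h2 : g 0 + g 0 = 0 := vec_add_self _
  rw [h, h2]

lemma Uni.lo {g : Equiv.Perm (Fin d → ZMod 2)} (hg : Uni g) {n : ℕ} {x : Fin d → ZMod 2}
    (hx : Lo n x) : Lo n (g x) := by
  intro l hl
  have h1 := hg.tri n x hx l (by omega)
  rw [Pi.add_apply, hx l hl, add_zero] at h1
  exact h1

lemma Uni.one : Uni (1 : Equiv.Perm (Fin d → ZMod 2)) where
  add _ _ := rfl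
  tri n x _ l _ := by
    show (x + x) l = 0
    rw [vec_add_self]; rfl

lemma Uni.mul {g h : Equiv.Perm (Fin d → ZMod 2)} (hg : Uni g) (hh : Uni h) : Uni (g * h) where
  add x y := by
    rw [Equiv.Perm.mul_apply, Equiv.Perm.mul_apply, Equiv.Perm.mul_apply, hh.add, hg.add]
  tri n x hx l hl := by
    have h1 := hh.tri n x hx l hl
    have h2 := hg.tri n (h x) (hh.lo hx) l hl
    have h3 : ((g * h) x + x) l = (g (h x) + h x) l + (h x + x) l := by
      show g (h x) l + x l = (g (h x) l + h x l) + (h x l + x l)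
      have := zmod2_add_self (h x l)
      linear_combination -this
    rw [h3, h1, h2, add_zero]

/-- the group of the unitriangular maps -/
def UT (d : ℕ) : Subgroup (Equiv.Perm (Fin d → ZMod 2)) where
  carrier := {g | Uni g ∧ Uni g⁻¹}
  one_mem' := ⟨Uni.one, by rw [inv_one]; exact Uni.one⟩
  mul_mem' := by
    rintro a b ⟨ha, ha'⟩ ⟨hb, hb'⟩
    exact ⟨ha.mul hb, by rw [_root_.mul_inv_rev]; exact hb'.mul ha'⟩
  inv_mem' := by
    rintro a ⟨ha, ha'⟩
    exact ⟨ha', by rw [inv_inv]; exact ha⟩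

/-- the powers -/
lemma pow_tri {g : Equiv.Perm (Fin d → ZMod 2)} (hg : Uni g) (j : ℕ) :
    (∀ x y, (g ^ (2 ^ j)) (x + y) = (g ^ (2 ^ j)) x + (g ^ (2 ^ j)) y) ∧
    ∀ n x, Lo n x → Lo (n - 2 ^ j) ((g ^ (2 ^ j)) x + x) := by
  induction j with
  | zero =>
    rw [pow_zero, pow_one]
    exact ⟨hg.add, fun n x hx l hl => hg.tri n x hx l (by omega)⟩
  | succ j ih =>
    have h1 : g ^ (2 ^ (j + 1)) = g ^ (2 ^ j) * g ^ (2 ^ j) := by
      rw [← pow_add]; congr 1; ring
    rw [h1]
    generalize g ^ (2 ^ j) = h at *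
    obtain ⟨iha, ihb⟩ := ih
    refine ⟨fun x y => ?_, fun n x hx => ?_⟩
    · rw [Equiv.Perm.mul_apply, iha, iha]; rfl
    · have h2 := ihb n x hx
      have h3 := ihb _ _ h2
      have h4 : (h * h) x + x = h (h x + x) + (h x + x) := by
        rw [iha]
        show h (h x) + x = h (h x) + h x + (h x + x)
        have := vec_add_self (h x)
        linear_combination -this
      rw [h4]
      have h5 : n - 2 ^ j - 2 ^ j = n - 2 ^ (j + 1) := by
        rw [pow_succ]; omega
      rwa [h5] at h3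

lemma UT_pg : IsPGroup 2 (UT d) := by
  rintro ⟨g, hg, hg'⟩
  refine ⟨d, ?_⟩
  apply Subtype.ext
  show g ^ (2 ^ d) = 1
  ext x : 1
  have h1 := (pow_tri hg d).2 d x (fun l hl => absurd l.2 (by omega))
  have h2 : d - 2 ^ d = 0 := by
    have := Nat.lt_two_pow_self (n := d)
    omega
  rw [h2] at h1
  show (g ^ (2 ^ d)) x = x
  funext l
  have h3 := h1 l (Nat.zero_le _)
  rw [Pi.add_apply] at h3
  have h4 := zmod2_add_self (x l)
  linear_combination h3 - h4

/-- the transvection `v ↦ v + v_i w` -/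
lemma exists_transv (i : Fin d) {w : Fin d → ZMod 2} (hw : Lo i.1 w) :
    ∃ T ∈ UT d, ∀ v, T v = v + v i • w := by
  have hwi : w i = 0 := hw i (le_refl _)
  let f : (Fin d → ZMod 2) → (Fin d → ZMod 2) := fun v => v + v i • w
  have hinv : Function.Involutive f := by
    intro v
    show (v + v i • w) + (v + v i • w) i • w = v
    have h1 : (v + v i • w) i = v i := by
      rw [Pi.add_apply, Pi.smul_apply, hwi, smul_zero, add_zero]
    rw [h1, add_assoc, vec_add_self, add_zero]
  have hU : Uni (hinv.toPerm f) := by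
    refine ⟨fun x y => ?_, fun n x hx l hl => ?_⟩
    · show (x + y) + (x + y) i • w = (x + x i • w) + (y + y i • w)
      rw [Pi.add_apply, add_smul]; abel
    · show ((x + x i • w) + x) l = 0
      have h1 : (x + x i • w) + x = x i • w := by
        have := vec_add_self x
        linear_combination this
      rw [h1, Pi.smul_apply]
      by_cases h2 : n ≤ i.1
      · rw [hx i h2, zero_smul]
      · rw [hw l (by omega), smul_zero]
  refine ⟨hinv.toPerm f, ⟨hU, ?_⟩, fun v => rfl⟩
  have h1 : (hinv.toPerm f)⁻¹ = hinv.toPerm f := rfl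
  rw [h1]; exact hU

/-- invariant sets are unions of shells -/
lemma shell {B : Finset (Fin d → ZMod 2)} (hB : ∀ T ∈ UT d, B.image T = B) (i : Fin d)
    {x y : Fin d → ZMod 2} (hx : Lo (i.1 + 1) x) (hy : Lo (i.1 + 1) y) (hxi : x i ≠ 0)
    (hyi : y i ≠ 0) (hxB : x ∈ B) : y ∈ B := by
  have hw : Lo i.1 (x + y) := by
    intro l hl
    rcases Nat.eq_or_lt_of_le hl with h | h
    · have h1 : i = l := Fin.ext h
      rw [← h1, Pi.add_apply, zmod2_eq_one hxi, zmod2_eq_one hyi]
      decide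
    · rw [Pi.add_apply, hx l h, hy l h, add_zero]
  obtain ⟨T, hT, h⟩ := exists_transv i hw
  rw [← hB T hT]
  refine Finset.mem_image.2 ⟨x, hxB, ?_⟩
  rw [h, zmod2_eq_one hxi, one_smul, ← add_assoc, vec_add_self, zero_add]

end Pool.Agent.N86.S10
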